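import Pool.Agent.helper5.IH.Spec

/-! # ih:JAC -/

set_option autoImplicit false

namespace Pool.Agent.IH
open Finset CT SYM

/-- a kernel vector vanishing at `x` is zero if some entry `x y` of the adjugate is not zero -/
private theorem JAC_ker {V : Type} [Fintype V] [DecidableEq V] (M : Matrix V V (ZMod 2)) (x y : V)
    (hB : M.adjugate x y ≠ 0) (z : V → ZMod 2) (hz : M.mulVec z = 0) (hx : z x = 0) : z = 0 := by
  rw [Matrix.adjugate_apply] at hB
  apply Matrix.eq_zero_of_mulVec_eq_zero hB
  funext i
  by_cases hi : i = y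
  · rw [hi]
    show (M.updateRow y (Pi.single x 1)) y ⬝ᵥ z = 0
    rw [Matrix.updateRow_self, single_dotProduct, hx, mul_zero]
  · show (M.updateRow y (Pi.single x 1)) i ⬝ᵥ z = 0
    rw [Matrix.updateRow_ne hi]
    exact congrFun hz i

/-- **JAC** -/
theorem JAC : JAC_stmt := by
  intro V _ _ M x y hM hdet
  have hsym : ∀ i j, M.adjugate i j = M.adjugate j i := by
    intro i j
    have h1 : M.adjugate.transpose = M.adjugate := by
      rw [Matrix.adjugate_transpose, hM]
    have h2 := congrFun (congrFun h1 j) i
    rw [Matrix.transpose_apply] at h2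
    exact h2
  have hmul : M * M.adjugate = 0 := by
    rw [Matrix.mul_adjugate, hdet, zero_smul]
  have hcol : ∀ j, M.mulVec (fun i => M.adjugate i j) = 0 := by
    intro j
    funext i
    exact congrFun (congrFun hmul i) j
  have hid : ∀ a : ZMod 2, a * a = a := by decide
  have h01 : ∀ a : ZMod 2, a ≠ 0 → a = 1 := by decide
  by_cases hxx : M.adjugate x x = 0
  · rw [hxx, zero_mul]
    by_contra hne
    have hne' : M.adjugate x y ≠ 0 := fun h => hne h.symm
    have h3 := JAC_ker M x y hne' (fun i => M.adjugate i x) (hcol x) hxx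
    have h4 : M.adjugate y x = 0 := congrFun h3 y
    exact hne' (by rw [hsym]; exact h4)
  · have h1 := h01 _ hxx
    have h3 := JAC_ker M x x hxx (fun i => M.adjugate i y - M.adjugate x y * M.adjugate i x) (by
      have e : (fun i => M.adjugate i y - M.adjugate x y * M.adjugate i x) =
          (fun i => M.adjugate i y) - M.adjugate x y • (fun i => M.adjugate i x) := rfl
      rw [e, Matrix.mulVec_sub, Matrix.mulVec_smul, hcol, hcol, smul_zero, sub_zero]) (by
      show M.adjugate x y - M.adjugate x y * M.adjugate x x = 0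
      rw [h1, mul_one, sub_self])
    have h4 : M.adjugate y y - M.adjugate x y * M.adjugate y x = 0 := congrFun h3 y
    rw [hsym y x, hid, sub_eq_zero] at h4
    rw [h1, one_mul, h4]

end Pool.Agent.IH
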